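import Pool.Agent.Y157.PS.Stm2
import Pool.Agent.H525R3.FFp.Riemann

/-!
# (CLF1) functions over a finite constant field with divisor divisible by `ℓ ^ n`

(helper37, job 842 of project PS.)
-/

set_option autoImplicit false
set_option linter.all false

open Module IntermediateField Pool.Agent.H525R3.FFp Pool.Agent.Y157.PS
open FF (Place IsFF)

namespace Pool.Agent.Y37.PS

section places

variable {k K : Type} [Field k] [Field K] [Algebra k K]

/-- the reduction of a polynomial expression -/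
theorem red_aeval (P : Place k K) {t : K} (ht : P.Reg t) (g : Polynomial k) :
    P.Reg (Polynomial.aeval t g) ∧
      P.red (Polynomial.aeval t g) = Polynomial.aeval (P.red t) g := by
  induction g using Polynomial.induction_on' with
  | add p q hp hq =>
    rw [map_add, map_add]
    exact ⟨P.reg_add hp.1 hq.1, by rw [P.red_add hp.1 hq.1, hp.2, hq.2]⟩
  | monomial n a =>
    rw [Polynomial.aeval_monomial, Polynomial.aeval_monomial]
    have hp : P.Reg (t ^ n) := P.mem_O.1 (pow_mem (P.mem_O.2 ht) n)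
    refine ⟨P.reg_mul (P.reg_const a) hp, ?_⟩
    rw [P.red_mul (P.reg_const a) hp, P.red_pow ht, P.algebraMap_RF]

/-- there are finitely many places of bounded degree over a finite field -/
theorem finite_deg [Finite k] [PerfectField k] [IsFF k K] {t : K} (ht : Transcendental k t)
    (m : ℕ) : {P : Place k K | P.deg ≤ m}.Finite := by
  have hfin : Finite (Polynomial.degreeLT k (m + 1)) :=
    Finite.of_equiv _ (Polynomial.degreeLTEquiv k (m + 1)).symm.toEquiv
  refine ((finite_support (k := k) t).union (Set.finite_iUnion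
    (fun g : Polynomial.degreeLT k (m + 1) =>
      finite_support (k := k) (Polynomial.aeval t g.1)))).subset ?_
  intro P hP
  by_cases h0 : P.ord t = 0
  · right
    have ht0 : t ≠ 0 := by
      rintro rfl
      exact ht (isAlgebraic_zero)
    have hreg : P.Reg t := (P.reg_iff ht0).2 h0.ge
    have hint : IsIntegral k (P.red t) := Algebra.IsIntegral.isIntegral _
    have hdeg : (minpoly k (P.red t)).natDegree ≤ m :=
      (minpoly.natDegree_le (P.red t)).trans hP
    have hmem : minpoly k (P.red t) ∈ Polynomial.degreeLT k (m + 1) := by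
      rw [Polynomial.mem_degreeLT]
      refine lt_of_le_of_lt Polynomial.degree_le_natDegree ?_
      exact_mod_cast Nat.lt_succ_of_le hdeg
    refine Set.mem_iUnion.2 ⟨⟨_, hmem⟩, ?_⟩
    have h1 := red_aeval P hreg (minpoly k (P.red t))
    rw [minpoly.aeval, P.red_eq_zero_iff h1.1] at h1
    rcases h1.2 with h2 | h2
    · exact absurd ⟨_, minpoly.ne_zero hint, h2⟩ ht
    · exact h2.ne'
  · exact Or.inl h0

/-- there are finitely many effective divisors of given degree over a finite field -/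
theorem finite_eff [Finite k] [PerfectField k] [IsFF k K] {t : K} (ht : Transcendental k t)
    (m : ℤ) : {E : Place k K →₀ ℤ | 0 ≤ E ∧ ddeg E = m}.Finite := by
  classical
  refine ((finite_deg (K := K) ht m.toNat).toFinset.finsupp fun _ =>
    Finset.Icc (0 : ℤ) m).finite_toSet.subset ?_
  rintro E ⟨hE, hd⟩
  have key : ∀ P : Place k K, E P * P.deg ≤ m := by
    intro P
    have h1 : (0 : Place k K →₀ ℤ) ≤ E - Finsupp.single P (E P) := by
      intro Q
      rw [Finsupp.sub_apply, Finsupp.single_apply]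
      split_ifs with h
      · subst h
        simp
      · rw [sub_zero]
        exact hE Q
    have h2 := ddeg_nonneg h1
    rw [ddeg_sub, ddeg_single] at h2
    omega
  have hm : 0 ≤ m := hd ▸ ddeg_nonneg hE
  rw [Finset.mem_coe, Finset.mem_finsupp_iff]
  constructor
  · intro P hP
    rw [Finsupp.mem_support_iff] at hP
    rw [Set.Finite.mem_toFinset, Set.mem_setOf_eq]
    have h1 : 1 ≤ E P := by
      have := hE P
      rw [Finsupp.zero_apply] at this
      omega
    have h2 := key P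
    have h3 : (P.deg : ℤ) ≤ E P * P.deg := le_mul_of_one_le_left (Nat.cast_nonneg _) h1
    omega
  · intro P _
    rw [Finset.mem_Icc]
    refine ⟨hE P, ?_⟩
    have h1 : (1 : ℤ) ≤ P.deg := by exact_mod_cast deg_pos P
    have h2 : E P ≤ E P * P.deg := le_mul_of_one_le_right (hE P) h1
    exact h2.trans (key P)

end places

theorem clf1 : S_CLF1 := by
  intro ℓ hℓ k K _ _ _ _ x hx hfin _
  classical
  have hFF : IsFF k K := IsFF.of_finite hx hfin
  have hperf : PerfectField k := inferInstance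
  obtain ⟨γ, N, hγ, -⟩ := riemann k K
  obtain ⟨P0, -⟩ := exists_place (k := k) (K := K)
  obtain ⟨A, hA⟩ : ∃ A : Place k K →₀ ℤ, γ < ddeg A := by
    refine ⟨Finsupp.single P0 (max γ 0 + 1), ?_⟩
    rw [ddeg_single]
    have h1 : (1 : ℤ) ≤ P0.deg := by exact_mod_cast deg_pos P0
    have h2 : max γ 0 + 1 ≤ (max γ 0 + 1) * P0.deg :=
      le_mul_of_one_le_right (by have := le_max_right γ 0; omega) h1
    have h3 := le_max_left γ 0
    omega
  have hEff := finite_eff (K := K) hx (ddeg A)
  have hL0 : ((LL (0 : Place k K →₀ ℤ) : Submodule k K) : Set K).Finite := by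
    have : Finite (LL (0 : Place k K →₀ ℤ)) := Module.finite_of_finite k
    exact Set.toFinite _
  refine ⟨hEff.toFinset.card * hL0.toFinset.card, ?_⟩
  intro n T hT hcard
  have hN0 : ((ℓ : ℤ) ^ n) ≠ 0 := pow_ne_zero _ (by exact_mod_cast hℓ.out.ne_zero)
  have key : ∀ h : K, ∃ (f : K) (E : Place k K →₀ ℤ),
      (h ≠ 0 ∧ ∀ w : Place k K, ((ℓ : ℤ) ^ n) ∣ w.ord h) →
        f ≠ 0 ∧ E ∈ hEff.toFinset ∧
          ∀ w : Place k K, w.ord (h * f ^ (ℓ ^ n)) = (ℓ : ℤ) ^ n * (E w - A w) := by
    intro h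
    by_cases hh : h ≠ 0 ∧ ∀ w : Place k K, ((ℓ : ℤ) ^ n) ∣ w.ord h
    swap
    · exact ⟨0, 0, fun h' => absurd h' hh⟩
    obtain ⟨hh0, hh1⟩ := hh
    let D : Place k K →₀ ℤ := (divisor k h).mapRange (fun z => z / (ℓ : ℤ) ^ n) (by simp)
    have hD : ∀ w : Place k K, (ℓ : ℤ) ^ n * D w = w.ord h := by
      intro w
      change (ℓ : ℤ) ^ n * (Finsupp.mapRange _ _ _ w) = _
      rw [Finsupp.mapRange_apply, divisor_apply]
      exact Int.mul_ediv_cancel' (hh1 w)
    have hD2 : (ℓ ^ n) • D = divisor k h := by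
      ext w
      rw [Finsupp.smul_apply, nsmul_eq_mul, divisor_apply, ← hD w]
      push_cast
      rfl
    have hdeg : ddeg D = 0 := by
      have h1 := ddeg_nsmul (ℓ ^ n) D
      rw [hD2, ddeg_divisor] at h1
      push_cast at h1
      rcases mul_eq_zero.1 h1.symm with h2 | h2
      · exact absurd h2 hN0
      · exact h2
    have hell : 0 < ell (D + A) := by
      have := hγ (D + A)
      rw [ddeg_add, hdeg] at this
      omega
    obtain ⟨f, hf, hf0⟩ := exists_ne_zero_of_ell_pos hell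
    rw [mem_LL' hf0] at hf
    refine ⟨f, divisor k f + (D + A), fun _ => ⟨hf0, ?_, ?_⟩⟩
    · rw [Set.Finite.mem_toFinset]
      refine ⟨hf, ?_⟩
      rw [ddeg_add, ddeg_add, ddeg_divisor, hdeg]
      ring
    · intro w
      rw [w.ord_mul hh0 (pow_ne_zero _ hf0), w.ord_pow, ← hD w, Finsupp.add_apply,
        Finsupp.add_apply, divisor_apply]
      push_cast
      ring
  choose f E hfE using key
  have hz : ∀ E' : Place k K →₀ ℤ, ∃ z : K,
      (∃ z' : K, z' ≠ 0 ∧ ∀ w : Place k K, w.ord z' = (ℓ : ℤ) ^ n * (E' w - A w)) →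
        z ≠ 0 ∧ ∀ w : Place k K, w.ord z = (ℓ : ℤ) ^ n * (E' w - A w) := by
    intro E'
    by_cases h : ∃ z' : K, z' ≠ 0 ∧ ∀ w : Place k K, w.ord z' = (ℓ : ℤ) ^ n * (E' w - A w)
    · obtain ⟨z', hz'⟩ := h
      exact ⟨z', fun _ => hz'⟩
    · exact ⟨0, fun h' => absurd h' h⟩
  choose z hz using hz
  have hmaps : ∀ h ∈ T, (E h, h * f h ^ (ℓ ^ n) / z (E h)) ∈
      hEff.toFinset ×ˢ hL0.toFinset := by
    intro h hh
    obtain ⟨h1, h2, h3⟩ := hfE h (hT h hh)
    have hne : h * f h ^ (ℓ ^ n) ≠ 0 := mul_ne_zero (hT h hh).1 (pow_ne_zero _ h1)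
    obtain ⟨h4, h5⟩ := hz (E h) ⟨_, hne, h3⟩
    refine Finset.mk_mem_product h2 ?_
    rw [Set.Finite.mem_toFinset, SetLike.mem_coe, mem_LL]
    right
    intro w
    rw [w.ord_div hne h4, h3, h5]
    simp
  obtain ⟨h, hh, h', hh', hne, heq⟩ := Finset.exists_ne_map_eq_of_card_lt_of_maps_to
    (by rw [Finset.card_product]; exact hcard) hmaps
  refine ⟨h, hh, h', hh', hne, f h' / f h, ?_⟩
  rw [Prod.mk.injEq] at heq
  obtain ⟨hE, hq⟩ := heq
  obtain ⟨h1, -, h3⟩ := hfE h (hT h hh)
  have hne1 : h * f h ^ (ℓ ^ n) ≠ 0 := mul_ne_zero (hT h hh).1 (pow_ne_zero _ h1)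
  obtain ⟨h4, -⟩ := hz (E h) ⟨_, hne1, h3⟩
  rw [← hE, div_left_inj' h4] at hq
  rw [div_pow, ← mul_div_assoc, ← hq, mul_div_assoc, div_self (pow_ne_zero _ h1), mul_one]

end Pool.Agent.Y37.PS
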